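import Pool.Agent.H22.LPP.TargetsB

open MeasureTheory ProbabilityTheory
open scoped ENNReal
open Pool.Agent.H99.NS Pool.Agent.H22.LPP
open Pool.Agent.H84.GL (D_UT D_LT len dsp)

namespace Pool.Agent.H26.LPP

/-- A power against a stretched exponential. -/
theorem CR_real (β c₁ c₀ : ℝ) (hβ : 0 < β) (hc₁ : 0 < c₁) (hc₀ : 0 < c₀) :
    ∃ K : ℝ, 0 < K ∧ ∀ x : ℝ, 1 ≤ x →
      x ^ (4 * β) * Real.exp (-(c₀ * x ^ c₁)) ≤ K * Real.exp (-(x ^ (c₁ / 2))) := by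
  set k : ℕ := ⌈8 * β / c₁⌉₊ with hk
  refine ⟨(k.factorial : ℝ) * Real.exp (1 / c₀), by positivity, fun x hx => ?_⟩
  have hx0 : 0 < x := by linarith
  set z : ℝ := x ^ (c₁ / 2) with hz
  have hz1 : 1 ≤ z := Real.one_le_rpow hx (by positivity)
  have hz0 : 0 < z := by linarith
  have e1 : x ^ c₁ = z ^ 2 := by
    rw [hz, ← Real.rpow_natCast, ← Real.rpow_mul hx0.le]
    congr 1
    push_cast
    ring
  have e2 : x ^ (4 * β) = z ^ (8 * β / c₁) := by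
    rw [hz, ← Real.rpow_mul hx0.le]
    congr 1
    field_simp
    ring
  have h1 : z ^ (8 * β / c₁) ≤ (k.factorial : ℝ) * Real.exp z := by
    have h2 : z ^ (8 * β / c₁) ≤ z ^ k := by
      rw [← Real.rpow_natCast]
      exact Real.rpow_le_rpow_of_exponent_le hz1 (Nat.le_ceil _)
    have h3 := Real.pow_div_factorial_le_exp z hz0.le k
    rw [div_le_iff₀ (by positivity)] at h3
    linarith
  have h4 : -(c₀ * z ^ 2) ≤ 1 / c₀ - 2 * z := by
    have h5 : 0 ≤ (c₀ * z - 1) ^ 2 / c₀ := by positivity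
    have h6 : (c₀ * z - 1) ^ 2 / c₀ = c₀ * z ^ 2 - 2 * z + 1 / c₀ := by
      field_simp
      ring
    linarith
  rw [e1, e2]
  calc z ^ (8 * β / c₁) * Real.exp (-(c₀ * z ^ 2))
      ≤ ((k.factorial : ℝ) * Real.exp z) * Real.exp (1 / c₀ - 2 * z) := by
        apply mul_le_mul h1 (Real.exp_le_exp.2 h4) (Real.exp_pos _).le (by positivity)
    _ = (k.factorial : ℝ) * Real.exp (1 / c₀) * Real.exp (-z) := by
        rw [mul_assoc, mul_assoc, ← Real.exp_add, ← Real.exp_add]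
        congr 2
        ring

/-- The bad event of a pair. -/
def Bad (q X : ℝ) (p : Site × Site) : Set Env :=
  {ω | Reach p.1 p.2 ∧ p.1.1 < p.2.1 ∧
    (par q p.1 p.2 + X * dt p.1 p.2 ^ (1 / 3 : ℝ) ≤ T ω p.1 p.2 ∨
      (|dx p.1 p.2| ≤ dt p.1 p.2 ^ (3 / 4 : ℝ) ∧
        T ω p.1 p.2 ≤ par q p.1 p.2 - X * dt p.1 p.2 ^ (1 / 3 : ℝ)))}

theorem Bad_le (q : ℝ) (C₁ c₁ A c₂ : ℝ) (hC₁ : 0 < C₁) (hc₁ : 0 < c₁) (hA : 0 < A) (hc₂ : 0 < c₂)
    (hU : ∀ u v : Site, Reach u v → u.1 < v.1 → ∀ x : ℝ, 0 ≤ x →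
      PE q {ω | par q u v + x * (len u v) ^ ((1:ℝ)/3) ≤ T ω u v} ≤
      ENNReal.ofReal (C₁ * Real.exp (-(c₁ * min (x ^ ((3:ℝ)/2)) (x * (len u v) ^ ((1:ℝ)/3))))))
    (hL : ∀ u v : Site, Reach u v → u.1 < v.1 → |dsp u v| ≤ (len u v) ^ ((3:ℝ)/4) → ∀ x : ℝ, 0 ≤ x →
      PE q {ω | T ω u v ≤ par q u v - x * (len u v) ^ ((1:ℝ)/3)} ≤
      ENNReal.ofReal (A * Real.exp (-(c₂ * x ^ ((3:ℝ)/2)))))
    (X : ℝ) (hX : 1 ≤ X) (p : Site × Site) :
    (PE q).real (Bad q X p) ≤ (C₁ + A) * Real.exp (-(min c₁ c₂ * X)) := by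
  have hc : 0 < min c₁ c₂ := lt_min hc₁ hc₂
  have hX0 : 0 ≤ X := by linarith
  by_cases hr : Reach p.1 p.2 ∧ p.1.1 < p.2.1
  · obtain ⟨hr1, hr2⟩ := hr
    have hτ : 1 ≤ dt p.1 p.2 := one_le_dt hr2
    have hτ3 : 1 ≤ dt p.1 p.2 ^ ((1:ℝ)/3) := Real.one_le_rpow hτ (by norm_num)
    have hX32 : X ≤ X ^ ((3:ℝ)/2) := by
      conv_lhs => rw [← Real.rpow_one X]
      exact Real.rpow_le_rpow_of_exponent_le hX (by norm_num)
    have h1 : (PE q).real {ω | par q p.1 p.2 + X * dt p.1 p.2 ^ (1 / 3 : ℝ) ≤ T ω p.1 p.2} ≤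
        C₁ * Real.exp (-(min c₁ c₂ * X)) := by
      have h := ENNReal.toReal_le_of_le_ofReal (by positivity) (hU p.1 p.2 hr1 hr2 X hX0)
      refine le_trans h ?_
      apply mul_le_mul_of_nonneg_left _ hC₁.le
      apply Real.exp_le_exp.2
      apply neg_le_neg
      apply mul_le_mul (min_le_left _ _) _ hX0 hc₁.le
      apply le_min hX32
      change X ≤ X * dt p.1 p.2 ^ ((1:ℝ)/3)
      nlinarith
    have h2 : (PE q).real {ω | |dx p.1 p.2| ≤ dt p.1 p.2 ^ (3 / 4 : ℝ) ∧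
        T ω p.1 p.2 ≤ par q p.1 p.2 - X * dt p.1 p.2 ^ (1 / 3 : ℝ)} ≤
        A * Real.exp (-(min c₁ c₂ * X)) := by
      by_cases hd : |dx p.1 p.2| ≤ dt p.1 p.2 ^ (3 / 4 : ℝ)
      · have h := ENNReal.toReal_le_of_le_ofReal (by positivity) (hL p.1 p.2 hr1 hr2 hd X hX0)
        have hsub : {ω | |dx p.1 p.2| ≤ dt p.1 p.2 ^ (3 / 4 : ℝ) ∧
          T ω p.1 p.2 ≤ par q p.1 p.2 - X * dt p.1 p.2 ^ (1 / 3 : ℝ)} ⊆
          {ω | T ω p.1 p.2 ≤ par q p.1 p.2 - X * (len p.1 p.2) ^ ((1:ℝ)/3)} := fun ω h => h.2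
        refine (measureReal_mono hsub).trans (le_trans h ?_)
        apply mul_le_mul_of_nonneg_left _ hA.le
        apply Real.exp_le_exp.2
        apply neg_le_neg
        exact mul_le_mul (min_le_right _ _) hX32 hX0 hc₂.le
      · have he : {ω | |dx p.1 p.2| ≤ dt p.1 p.2 ^ (3 / 4 : ℝ) ∧
          T ω p.1 p.2 ≤ par q p.1 p.2 - X * dt p.1 p.2 ^ (1 / 3 : ℝ)} = ∅ := by
          ext ω
          simp only [Set.mem_ofPred_eq, Set.mem_empty_iff_false, iff_false]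
          exact fun h => hd h.1
        rw [he, measureReal_empty]
        positivity
    have hsub : Bad q X p ⊆ {ω | par q p.1 p.2 + X * dt p.1 p.2 ^ (1 / 3 : ℝ) ≤ T ω p.1 p.2} ∪
        {ω | |dx p.1 p.2| ≤ dt p.1 p.2 ^ (3 / 4 : ℝ) ∧
        T ω p.1 p.2 ≤ par q p.1 p.2 - X * dt p.1 p.2 ^ (1 / 3 : ℝ)} := by
      rintro ω ⟨_, _, h | h⟩
      · exact Or.inl h
      · exact Or.inr h
    calc (PE q).real (Bad q X p) ≤ _ := measureReal_mono hsub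
      _ ≤ _ := measureReal_union_le _ _
      _ ≤ C₁ * Real.exp (-(min c₁ c₂ * X)) + A * Real.exp (-(min c₁ c₂ * X)) := add_le_add h1 h2
      _ = _ := by ring
  · have he : Bad q X p = ∅ := by
      ext ω
      simp only [Bad, Set.mem_ofPred_eq, Set.mem_empty_iff_false, iff_false]
      exact fun h => hr ⟨h.1, h.2.1⟩
    rw [he, measureReal_empty]
    positivity

theorem m_cr (hU : D_UT) (hL : D_LT) : B_CR := by
  intro q hq hq1 β c₁ hβ hc₁
  obtain ⟨C, c, hC, hc, hU'⟩ := hU q hq hq1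
  obtain ⟨A, c', hA, hc', hL'⟩ := hL q hq hq1
  obtain ⟨K, hK, hK'⟩ := CR_real β c₁ (min c c') hβ hc₁ (lt_min hc hc')
  refine ⟨81 * (C + A) * K, c₁ / 2, by positivity, by positivity, fun n hn => ?_⟩
  have hn1 : (1 : ℝ) ≤ n := by exact_mod_cast hn
  have hnβ : 1 ≤ (n : ℝ) ^ β := Real.one_le_rpow hn1 hβ.le
  set X : ℝ := (n : ℝ) ^ c₁ with hX
  have hX1 : 1 ≤ X := Real.one_le_rpow hn1 hc₁.le
  set m : ℕ := ⌊(n : ℝ) ^ β⌋₊ with hm
  set S : Finset Site := Finset.Icc (-(m : ℤ)) m ×ˢ Finset.Icc (-(m : ℤ)) m with hS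
  have hmemS : ∀ u : Site, inBox n β u → u ∈ S := by
    intro u hu
    have key : ∀ z : ℤ, |(z : ℝ)| ≤ (n : ℝ) ^ β → z ∈ Finset.Icc (-(m : ℤ)) m := by
      intro z hz
      have h1 : ((z.natAbs : ℕ) : ℝ) ≤ (n : ℝ) ^ β := by
        rw [Nat.cast_natAbs, Int.cast_abs]
        exact hz
      have h2 : z.natAbs ≤ m := Nat.le_floor h1
      rw [Finset.mem_Icc]
      omega
    exact Finset.mem_product.2 ⟨key _ hu.1, key _ hu.2⟩
  have hcard : ((S.card : ℕ) : ℝ) ≤ 9 * ((n : ℝ) ^ β) ^ 2 := by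
    have h1 : S.card = (2 * m + 1) * (2 * m + 1) := by
      rw [hS, Finset.card_product, Int.card_Icc]
      congr 1 <;> omega
    have h2 : (m : ℝ) ≤ (n : ℝ) ^ β := Nat.floor_le (by positivity)
    rw [h1]
    push_cast
    have h3 : (2 * (m : ℝ) + 1) ≤ 3 * (n : ℝ) ^ β := by linarith
    have h4 : (0 : ℝ) ≤ 2 * (m : ℝ) + 1 := by positivity
    nlinarith
  have hsub : {ω | ¬ CR q β c₁ n ω} ⊆ ⋃ p ∈ S ×ˢ S, Bad q X p := by
    intro ω hω
    simp only [Set.mem_ofPred_eq, CR] at hω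
    push Not at hω
    obtain ⟨u, v, hu, hv, hr, huv, h⟩ := hω
    rw [Set.mem_iUnion₂]
    refine ⟨(u, v), Finset.mem_product.2 ⟨hmemS u hu, hmemS v hv⟩, hr, huv, ?_⟩
    by_cases h1 : T ω u v ≤ par q u v + (n : ℝ) ^ c₁ * dt u v ^ (1 / 3 : ℝ)
    · right
      obtain ⟨h2, h3⟩ := h h1
      exact ⟨h2, h3.le⟩
    · left
      push Not at h1
      exact h1.le
  calc (PE q).real {ω | ¬ CR q β c₁ n ω} ≤ (PE q).real (⋃ p ∈ S ×ˢ S, Bad q X p) :=
        measureReal_mono hsub (measure_ne_top _ _)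
    _ ≤ ∑ p ∈ S ×ˢ S, (PE q).real (Bad q X p) := measureReal_biUnion_finset_le _ _
    _ ≤ ∑ p ∈ S ×ˢ S, (C + A) * Real.exp (-(min c c' * X)) :=
        Finset.sum_le_sum fun p _ => Bad_le q C c A c' hC hc hA hc' hU' hL' X hX1 p
    _ = (S.card : ℝ) * S.card * ((C + A) * Real.exp (-(min c c' * X))) := by
        rw [Finset.sum_const, Finset.card_product, nsmul_eq_mul]
        push_cast
        ring
    _ ≤ (9 * ((n : ℝ) ^ β) ^ 2) * (9 * ((n : ℝ) ^ β) ^ 2) *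
          ((C + A) * Real.exp (-(min c c' * X))) := by
        apply mul_le_mul_of_nonneg_right _ (by positivity)
        exact mul_le_mul hcard hcard (by positivity) (by positivity)
    _ = 81 * (C + A) * ((n : ℝ) ^ (4 * β) * Real.exp (-(min c c' * X))) := by
        have : (n : ℝ) ^ (4 * β) = ((n : ℝ) ^ β) ^ 4 := by
          rw [← Real.rpow_natCast, ← Real.rpow_mul (by positivity)]
          congr 1
          push_cast
          ring
        rw [this]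
        ring
    _ ≤ 81 * (C + A) * (K * Real.exp (-((n : ℝ) ^ (c₁ / 2)))) := by
        apply mul_le_mul_of_nonneg_left _ (by positivity)
        exact hK' n hn1
    _ = 81 * (C + A) * K * Real.exp (-(n : ℝ) ^ (c₁ / 2)) := by ring

end Pool.Agent.H26.LPP
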