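import Pool.Agent.H22.LPP.TargetsB

open MeasureTheory ProbabilityTheory
open scoped ENNReal
open Pool.Agent.H99.NS Pool.Agent.H22.LPP

namespace Pool.Agent.H26.LPP

/-- The partition function of the greedy problem. -/
noncomputable def SS (Z : ℕ → ℤ → ℤ → Env → ℝ) (pen : ℤ → ℝ) (θ : ℝ) (Dm : ℕ) :
    ℕ → ℕ → ℤ → Env → ℝ≥0∞
  | 0, _, _, _ => 1
  | (M+1), l, x, ω => ∑ D ∈ Finset.Icc (-(Dm : ℤ)) Dm,
      ENNReal.ofReal (Real.exp (-θ * pen D)) *
        (ENNReal.ofReal (Real.exp (θ * Z l D x ω)) * SS Z pen θ Dm M (l+1) (x+D) ω)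

theorem SS_zero (Z : ℕ → ℤ → ℤ → Env → ℝ) (pen : ℤ → ℝ) (θ : ℝ) (Dm : ℕ) (l : ℕ) (x : ℤ) :
    SS Z pen θ Dm 0 l x = fun _ => 1 := by
  funext ω; simp only [SS]

theorem SS_succ (Z : ℕ → ℤ → ℤ → Env → ℝ) (pen : ℤ → ℝ) (θ : ℝ) (Dm M : ℕ) (l : ℕ) (x : ℤ) :
    SS Z pen θ Dm (M+1) l x = fun ω => ∑ D ∈ Finset.Icc (-(Dm : ℤ)) Dm,
      ENNReal.ofReal (Real.exp (-θ * pen D)) *
        (ENNReal.ofReal (Real.exp (θ * Z l D x ω)) * SS Z pen θ Dm M (l+1) (x+D) ω) := by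
  funext ω; simp only [SS]

theorem SS_meas (Z : ℕ → ℤ → ℤ → Env → ℝ) (pen : ℤ → ℝ) (θ : ℝ) (Dm : ℕ)
    (hZ : ∀ l D x, Measurable (Z l D x)) (M : ℕ) : ∀ l x, Measurable (SS Z pen θ Dm M l x) := by
  induction M with
  | zero => intro l x; rw [SS_zero]; exact measurable_const
  | succ M ih =>
    intro l x
    rw [SS_succ]
    refine Finset.measurable_sum _ fun D _ => ?_
    have h1 : Measurable (fun ω => ENNReal.ofReal (Real.exp (θ * Z l D x ω))) :=
      ENNReal.measurable_ofReal.comp (Real.measurable_exp.comp ((hZ l D x).const_mul θ))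
    exact (h1.mul (ih (l+1) (x+D))).const_mul _

theorem SS_dep (Z : ℕ → ℤ → ℤ → Env → ℝ) (pen : ℤ → ℝ) (θ : ℝ) (Dm : ℕ) (H : ℤ) (hH : 0 < H)
    (hD : ∀ (l : ℕ) D x, DepOn (slab ((l : ℤ) * H) (((l : ℤ) + 1) * H)) (Z l D x)) (M : ℕ) :
    ∀ (l : ℕ) x, DepOn (slab ((l : ℤ) * H) (((l : ℤ) + M) * H)) (SS Z pen θ Dm M l x) := by
  induction M with
  | zero => intro l x ω ω' _; simp [SS]
  | succ M ih =>
    intro l x ω ω' h
    unfold SS
    refine Finset.sum_congr rfl fun D _ => ?_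
    have e1 : Z l D x ω = Z l D x ω' := by
      apply hD l D x ω ω'
      rintro y ⟨hy1, hy2⟩
      apply h y
      refine ⟨hy1, hy2.trans ?_⟩
      apply mul_le_mul_of_nonneg_right _ hH.le
      push_cast
      omega
    have e2 : SS Z pen θ Dm M (l+1) (x+D) ω = SS Z pen θ Dm M (l+1) (x+D) ω' := by
      apply ih (l+1) (x+D) ω ω'
      rintro y ⟨hy1, hy2⟩
      apply h y
      refine ⟨lt_of_le_of_lt ?_ hy1, hy2.trans ?_⟩
      · apply mul_le_mul_of_nonneg_right _ hH.le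
        push_cast
        omega
      · apply mul_le_mul_of_nonneg_right _ hH.le
        push_cast
        omega
    rw [e1, e2]

theorem SS_lint (q : ℝ) (Z : ℕ → ℤ → ℤ → Env → ℝ) (pen : ℤ → ℝ) (θ : ℝ) (Dm : ℕ) (H : ℤ)
    (hH : 0 < H) (C S : ℝ) (hC : 0 ≤ C) (hS0 : 0 ≤ S) (hZ : ∀ l D x, Measurable (Z l D x))
    (hD : ∀ (l : ℕ) D x, DepOn (slab ((l : ℤ) * H) (((l : ℤ) + 1) * H)) (Z l D x))
    (hI : ∀ l D x, ∫⁻ ω, ENNReal.ofReal (Real.exp (θ * Z l D x ω)) ∂(PE q) ≤ ENNReal.ofReal C)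
    (hS : ∑ D ∈ Finset.Icc (-(Dm : ℤ)) Dm, Real.exp (-θ * pen D) ≤ S) (M : ℕ) :
    ∀ (l : ℕ) x, ∫⁻ ω, SS Z pen θ Dm M l x ω ∂(PE q) ≤ ENNReal.ofReal ((C * S) ^ M) := by
  induction M with
  | zero => intro l x; simp [SS]
  | succ M ih =>
    intro l x
    have hm : ∀ D, Measurable (fun ω => ENNReal.ofReal (Real.exp (θ * Z l D x ω))) := fun D =>
      ENNReal.measurable_ofReal.comp (Real.measurable_exp.comp ((hZ l D x).const_mul θ))
    have hm2 : ∀ D, Measurable (SS Z pen θ Dm M (l+1) (x+D)) := fun D =>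
      SS_meas Z pen θ Dm hZ M (l+1) (x+D)
    have hm3 : ∀ D, Measurable (fun ω => ENNReal.ofReal (Real.exp (-θ * pen D)) *
        (ENNReal.ofReal (Real.exp (θ * Z l D x ω)) * SS Z pen θ Dm M (l+1) (x+D) ω)) := fun D =>
      ((hm D).mul (hm2 D)).const_mul _
    rw [SS_succ, lintegral_finsetSum _ fun D _ => hm3 D]
    have key : ∀ D, ∫⁻ ω, ENNReal.ofReal (Real.exp (-θ * pen D)) *
        (ENNReal.ofReal (Real.exp (θ * Z l D x ω)) * SS Z pen θ Dm M (l+1) (x+D) ω) ∂(PE q) ≤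
        ENNReal.ofReal (Real.exp (-θ * pen D)) * (ENNReal.ofReal C * ENNReal.ofReal ((C * S) ^ M)) := by
      intro D
      have hm4 : Measurable (fun ω => ENNReal.ofReal (Real.exp (θ * Z l D x ω)) *
        SS Z pen θ Dm M (l+1) (x+D) ω) := (hm D).mul (hm2 D)
      rw [lintegral_const_mul _ hm4]
      gcongr
      have hdis : Disjoint (slab ((l : ℤ) * H) (((l : ℤ) + 1) * H))
          (slab (((l + 1 : ℕ) : ℤ) * H) ((((l + 1 : ℕ) : ℤ) + M) * H)) := by
        apply slab_disjoint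
        push_cast
        exact le_rfl
      have hdep1 : DepOn (slab ((l : ℤ) * H) (((l : ℤ) + 1) * H))
          (fun ω => ENNReal.ofReal (Real.exp (θ * Z l D x ω))) := by
        intro ω ω' h
        simp only
        rw [hD l D x ω ω' h]
      have hind := indepFun_of_depOn q hdis (hm D) (hm2 D) hdep1
        (SS_dep Z pen θ Dm H hH hD M (l+1) (x+D))
      have hprod := lintegral_mul_eq_lintegral_mul_lintegral_of_indepFun (hm D) (hm2 D) hind
      simp only [Pi.mul_apply] at hprod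
      rw [hprod]
      exact mul_le_mul' (hI l D x) (ih (l+1) (x+D))
    calc ∑ D ∈ Finset.Icc (-(Dm : ℤ)) Dm, ∫⁻ ω, ENNReal.ofReal (Real.exp (-θ * pen D)) *
          (ENNReal.ofReal (Real.exp (θ * Z l D x ω)) * SS Z pen θ Dm M (l+1) (x+D) ω) ∂(PE q)
        ≤ ∑ D ∈ Finset.Icc (-(Dm : ℤ)) Dm, ENNReal.ofReal (Real.exp (-θ * pen D)) *
            (ENNReal.ofReal C * ENNReal.ofReal ((C * S) ^ M)) := Finset.sum_le_sum fun D _ => key D
      _ = ENNReal.ofReal (∑ D ∈ Finset.Icc (-(Dm : ℤ)) Dm, Real.exp (-θ * pen D)) *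
            (ENNReal.ofReal C * ENNReal.ofReal ((C * S) ^ M)) := by
          rw [← Finset.sum_mul, ENNReal.ofReal_sum_of_nonneg fun D _ => (Real.exp_pos _).le]
      _ ≤ ENNReal.ofReal S * (ENNReal.ofReal C * ENNReal.ofReal ((C * S) ^ M)) := by
          gcongr
      _ = ENNReal.ofReal ((C * S) ^ (M+1)) := by
          rw [← ENNReal.ofReal_mul hC, ← ENNReal.ofReal_mul hS0]
          congr 1
          ring

theorem SS_lower (Z : ℕ → ℤ → ℤ → Env → ℝ) (pen : ℤ → ℝ) (θ : ℝ) (Dm : ℕ) (x : ℕ → ℤ) (ω : Env)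
    (M : ℕ) : ∀ l0 : ℕ, (∀ l < M, |x (l0 + l + 1) - x (l0 + l)| ≤ Dm) →
    ENNReal.ofReal (Real.exp (θ * ∑ l ∈ Finset.range M,
      (Z (l0 + l) (x (l0 + l + 1) - x (l0 + l)) (x (l0 + l)) ω -
        pen (x (l0 + l + 1) - x (l0 + l))))) ≤ SS Z pen θ Dm M l0 (x l0) ω := by
  induction M with
  | zero => intro l0 _; simp [SS]
  | succ M ih =>
    intro l0 h
    have h0 := h 0 (Nat.succ_pos M)
    simp only [add_zero] at h0
    have ih' := ih (l0 + 1) (fun l hl => by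
      have := h (l + 1) (by omega)
      rw [show l0 + 1 + l = l0 + (l + 1) by ring]
      exact this)
    rw [Finset.sum_range_succ', mul_add, Real.exp_add]
    have hmem : x (l0 + 1) - x l0 ∈ Finset.Icc (-(Dm : ℤ)) Dm := by
      rw [Finset.mem_Icc]
      exact abs_le.1 h0
    have hle : ENNReal.ofReal (Real.exp (-θ * pen (x (l0 + 1) - x l0))) *
        (ENNReal.ofReal (Real.exp (θ * Z l0 (x (l0 + 1) - x l0) (x l0) ω)) *
          SS Z pen θ Dm M (l0+1) (x l0 + (x (l0 + 1) - x l0)) ω) ≤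
        SS Z pen θ Dm (M+1) l0 (x l0) ω := by
      conv_rhs => unfold SS
      exact Finset.single_le_sum (f := fun D => ENNReal.ofReal (Real.exp (-θ * pen D)) *
        (ENNReal.ofReal (Real.exp (θ * Z l0 D (x l0) ω)) * SS Z pen θ Dm M (l0+1) (x l0 + D) ω))
        (fun _ _ => zero_le) hmem
    refine le_trans ?_ hle
    rw [show x l0 + (x (l0 + 1) - x l0) = x (l0 + 1) by ring]
    rw [ENNReal.ofReal_mul (Real.exp_pos _).le]
    have e1 : ENNReal.ofReal (Real.exp (θ * (Z (l0 + 0) (x (l0 + 0 + 1) - x (l0 + 0)) (x (l0 + 0)) ω -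
        pen (x (l0 + 0 + 1) - x (l0 + 0))))) =
        ENNReal.ofReal (Real.exp (-θ * pen (x (l0 + 1) - x l0))) *
        ENNReal.ofReal (Real.exp (θ * Z l0 (x (l0 + 1) - x l0) (x l0) ω)) := by
      rw [← ENNReal.ofReal_mul (Real.exp_pos _).le, ← Real.exp_add]
      congr 2
      simp only [add_zero]
      ring
    rw [e1]
    have e2 : ∑ l ∈ Finset.range M, (Z (l0 + (l + 1)) (x (l0 + (l + 1) + 1) - x (l0 + (l + 1)))
        (x (l0 + (l + 1))) ω - pen (x (l0 + (l + 1) + 1) - x (l0 + (l + 1)))) =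
        ∑ l ∈ Finset.range M, (Z (l0 + 1 + l) (x (l0 + 1 + l + 1) - x (l0 + 1 + l))
        (x (l0 + 1 + l)) ω - pen (x (l0 + 1 + l + 1) - x (l0 + 1 + l))) := by
      refine Finset.sum_congr rfl fun l _ => ?_
      rw [show l0 + (l + 1) = l0 + 1 + l by ring]
    rw [e2, mul_comm, mul_assoc]
    exact mul_le_mul' le_rfl (mul_le_mul' le_rfl ih')

theorem m_gr : B_GR := by
  intro q H Dm Z pen θ C S hH hθ hC hS hZ hD hI hSum M x₀
  have hCS : 1 ≤ C * S := by nlinarith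
  set L : ℝ := (Real.log (C * S) + 1) * M with hL
  have hsub : {ω | ∃ x : ℕ → ℤ, x 0 = x₀ ∧ (∀ l < M, |x (l + 1) - x l| ≤ Dm) ∧
      (Real.log (C * S) + 1) / θ * M ≤
        ∑ l ∈ Finset.range M, (Z l (x (l + 1) - x l) (x l) ω - pen (x (l + 1) - x l))} ⊆
      {ω | ENNReal.ofReal (Real.exp L) ≤ SS Z pen θ Dm M 0 x₀ ω} := by
    rintro ω ⟨x, hx0, hx, hsum⟩
    have h1 := SS_lower Z pen θ Dm x ω M 0 (fun l hl => by simpa using hx l hl)
    simp only [zero_add] at h1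
    rw [hx0] at h1
    refine le_trans ?_ h1
    apply ENNReal.ofReal_le_ofReal
    apply Real.exp_le_exp.2
    have h2 := mul_le_mul_of_nonneg_left hsum hθ.le
    refine le_trans (le_of_eq ?_) h2
    rw [hL]
    field_simp
  have hmark := mul_meas_ge_le_lintegral (μ := PE q) (SS_meas Z pen θ Dm hZ M 0 x₀)
    (ENNReal.ofReal (Real.exp L))
  have hlin := SS_lint q Z pen θ Dm H hH C S (by linarith) (by linarith) hZ hD hI hSum M 0 x₀
  have h3 : ENNReal.ofReal (Real.exp L) *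
      PE q {ω | ∃ x : ℕ → ℤ, x 0 = x₀ ∧ (∀ l < M, |x (l + 1) - x l| ≤ Dm) ∧
      (Real.log (C * S) + 1) / θ * M ≤
        ∑ l ∈ Finset.range M, (Z l (x (l + 1) - x l) (x l) ω - pen (x (l + 1) - x l))} ≤
      ENNReal.ofReal ((C * S) ^ M) :=
    (mul_le_mul_right (measure_mono hsub) _).trans (hmark.trans hlin)
  have h4 := ENNReal.toReal_mono ENNReal.ofReal_ne_top h3
  rw [ENNReal.toReal_mul, ENNReal.toReal_ofReal (Real.exp_pos _).le,
    ENNReal.toReal_ofReal (by positivity)] at h4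
  change Real.exp L * (PE q).real _ ≤ _ at h4
  have h5 : (C * S) ^ M = Real.exp L * Real.exp (-(M : ℝ)) := by
    rw [← Real.exp_add, hL, ← Real.exp_log (show (0:ℝ) < C * S by linarith), ← Real.exp_nat_mul,
      Real.log_exp]
    congr 1
    ring
  rw [h5] at h4
  exact le_of_mul_le_mul_left h4 (Real.exp_pos _)

end Pool.Agent.H26.LPP
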