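import Pool.Agent.H22.LPP.TargetsB

open MeasureTheory ProbabilityTheory
open scoped ENNReal
open Pool.Agent.H99.NS Pool.Agent.H22.LPP

namespace Pool.Agent.H26.LPP

/-- The common hypotheses. -/
structure Ctx (q β c₁ : ℝ) (n : ℕ) (ω : Env) (N y : ℤ) (γ : ℤ → ℤ) (g : ℝ) : Prop where
  hq : 0 < q
  hq1 : q < 1
  hβ : 1 ≤ β
  hc₁ : 0 < c₁
  hn : 1 ≤ n
  hCR : CR q β c₁ n ω
  hN1 : 1 ≤ N
  hN : N ≤ n
  hγ : Conn (0, 0) (N, y) γ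
  hg : T ω (0, 0) (N, y) - g ≤ wt ω 0 N γ

variable {q β c₁ : ℝ} {n : ℕ} {ω : Env} {N y : ℤ} {γ : ℤ → ℤ} {g : ℝ}

theorem Ctx.box (h : Ctx q β c₁ n ω N y γ g) (r : ℤ) (h0 : 0 ≤ r) (h1 : r ≤ N) :
    inBox n β (r, γ r) := by
  have hn1 : (1 : ℝ) ≤ n := by exact_mod_cast h.hn
  have hnβ : (n : ℝ) ≤ (n : ℝ) ^ β := by
    conv_lhs => rw [← Real.rpow_one (n : ℝ)]
    exact Real.rpow_le_rpow_of_exponent_le hn1 h.hβ
  have hrn : r ≤ n := h1.trans h.hN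
  have hl := (path_lip h.hγ.1 (le_refl (0:ℤ)) h0 h1).1
  have h00 : γ 0 = 0 := h.hγ.2.1
  rw [h00, sub_zero, sub_zero] at hl
  constructor
  · simp only
    rw [abs_of_nonneg (by exact_mod_cast h0)]
    exact (by exact_mod_cast hrn : (r : ℝ) ≤ n).trans hnβ
  · simp only
    have : |(γ r : ℝ)| ≤ (n : ℝ) := by
      rw [← Int.cast_abs]
      exact_mod_cast hl.trans hrn
    exact this.trans hnβ

theorem Ctx.rch (h : Ctx q β c₁ n ω N y γ g) {s t : ℤ} (h0 : 0 ≤ s) (h1 : s ≤ t) (h2 : t ≤ N) :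
    Reach (s, γ s) (t, γ t) ∧ wt ω s t γ ≤ T ω (s, γ s) (t, γ t) := by
  have hc : Conn (s, γ s) (t, γ t) γ := Conn.restrict (u := (0, 0)) (w := (N, y)) h.hγ h0 h2
  exact ⟨hc.reach h1, le_T ω (u := (s, γ s)) (v := (t, γ t)) h1 hc⟩

theorem Ctx.superT (h : Ctx q β c₁ n ω N y γ g) (s r t : ℤ) (h0 : 0 ≤ s) (h1 : s ≤ r) (h2 : r ≤ t)
    (h3 : t ≤ N) : T ω (s, γ s) (t, γ t) - g ≤ T ω (s, γ s) (r, γ r) + T ω (r, γ r) (t, γ t) := by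
  have h00 : γ 0 = 0 := h.hγ.2.1
  have hNN : γ N = y := h.hγ.2.2
  have hs : s ≤ t := h1.trans h2
  obtain ⟨hr1, w1⟩ := h.rch le_rfl h0 (hs.trans h3)
  obtain ⟨hr2, -⟩ := h.rch h0 hs h3
  obtain ⟨-, w2⟩ := h.rch h0 h1 (h2.trans h3)
  obtain ⟨-, w3⟩ := h.rch (h0.trans h1) h2 h3
  obtain ⟨hr3, w4⟩ := h.rch (h0.trans hs) h3 le_rfl
  rw [h00] at hr1 w1
  rw [hNN] at hr3 w4
  have e1 := T_superadd ω hr1 hr2
  have e2 := T_superadd ω (reach_trans hr1 hr2) hr3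
  have a1 := wt_add ω h0 (hs.trans h3) γ
  have a2 := wt_add ω h1 (h2.trans h3) γ
  have a3 := wt_add ω h2 h3 γ
  have hg := h.hg
  linarith

/-- The deviation from the chord. -/
noncomputable def dev (γ : ℤ → ℤ) (s t r : ℤ) : ℝ :=
  ((γ r - γ s : ℤ) : ℝ) - ((γ t - γ s : ℤ) : ℝ) * ((r - s : ℤ) : ℝ) / ((t - s : ℤ) : ℝ)

theorem Ctx.defic (h : Ctx q β c₁ n ω N y γ g) (s r t : ℤ) (h0 : 0 ≤ s) (h1 : s < r) (h2 : r < t)
    (h3 : t ≤ N) (hD : |((γ t - γ s : ℤ) : ℝ)| ≤ ((t - s : ℤ) : ℝ) ^ (3 / 4 : ℝ))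
    (hgX : g ≤ (n : ℝ) ^ c₁ * ((t - s : ℤ) : ℝ) ^ (1 / 3 : ℝ)) :
    |dev γ s t r| ≤ √(2 / sg q) * (n : ℝ) ^ (c₁ / 2) * ((t - s : ℤ) : ℝ) ^ (2 / 3 : ℝ) := by
  have hσ := sg_pos h.hq h.hq1
  have hn1 : (1 : ℝ) ≤ n := by exact_mod_cast h.hn
  have hn0 : (0 : ℝ) < n := by linarith
  set X : ℝ := (n : ℝ) ^ c₁ with hX
  have hX0 : 0 < X := Real.rpow_pos_of_pos hn0 _
  have hT := h.superT s r t h0 h1.le h2.le h3
  have hb1 := h.box s h0 (by omega)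
  have hb2 := h.box r (by omega) (by omega)
  have hb3 := h.box t (by omega) h3
  have R1 : Reach (s, γ s) (r, γ r) :=
    (h.hγ.restrict (s := s) (t := r) h0 (by simp only; omega)).reach (by simp only; omega)
  have R2 : Reach (r, γ r) (t, γ t) :=
    (h.hγ.restrict (s := r) (t := t) (by simp only; omega) h3).reach (by simp only; omega)
  have R3 : Reach (s, γ s) (t, γ t) := reach_trans R1 R2
  have c1 := (h.hCR (s, γ s) (r, γ r) hb1 hb2 R1 h1).1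
  have c2 := (h.hCR (r, γ r) (t, γ t) hb2 hb3 R2 h2).1
  have c3 := (h.hCR (s, γ s) (t, γ t) hb1 hb3 R3 (h1.trans h2)).2 hD
  have hdef := par_deficit q (u := (s, γ s)) (v := (r, γ r)) (w := (t, γ t)) h1 h2
  have p1 : 0 < dt (s, γ s) (r, γ r) := dt_pos h1
  have p2 : 0 < dt (r, γ r) (t, γ t) := dt_pos h2
  have hadd := dt_add (s, γ s) (r, γ r) (t, γ t)
  have hadx := dx_add (s, γ s) (r, γ r) (t, γ t)
  have eτ : dt (s, γ s) (t, γ t) = ((t - s : ℤ) : ℝ) := rfl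
  have eτ1 : dt (s, γ s) (r, γ r) = ((r - s : ℤ) : ℝ) := rfl
  have eD : dx (s, γ s) (t, γ t) = ((γ t - γ s : ℤ) : ℝ) := rfl
  have eD1 : dx (s, γ s) (r, γ r) = ((γ r - γ s : ℤ) : ℝ) := rfl
  unfold dev
  rw [← eτ, ← eτ1, ← eD, ← eD1]
  rw [← eτ] at hgX
  set τ : ℝ := dt (s, γ s) (t, γ t) with hτ
  set τ₁ : ℝ := dt (s, γ s) (r, γ r) with hτ₁
  set τ₂ : ℝ := dt (r, γ r) (t, γ t) with hτ₂
  set D : ℝ := dx (s, γ s) (t, γ t) with hDD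
  set D₁ : ℝ := dx (s, γ s) (r, γ r) with hD₁
  set D₂ : ℝ := dx (r, γ r) (t, γ t) with hD₂
  have p3 : 0 < τ := by linarith
  set δ : ℝ := D₁ - D * τ₁ / τ with hδ
  have hτ13 : τ₁ ^ (1 / 3 : ℝ) ≤ τ ^ (1 / 3 : ℝ) :=
    Real.rpow_le_rpow p1.le (by linarith) (by norm_num)
  have hτ23 : τ₂ ^ (1 / 3 : ℝ) ≤ τ ^ (1 / 3 : ℝ) :=
    Real.rpow_le_rpow p2.le (by linarith) (by norm_num)
  have hsum : sg q / 2 * (τ₂ * D₁ - τ₁ * D₂) ^ 2 / (τ₁ * τ₂ * τ) ≤ 4 * (X * τ ^ (1 / 3 : ℝ)) := by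
    rw [← hdef]
    have m1 := mul_le_mul_of_nonneg_left hτ13 hX0.le
    have m2 := mul_le_mul_of_nonneg_left hτ23 hX0.le
    linarith
  have hτδ : τ₂ * D₁ - τ₁ * D₂ = τ * δ := by
    rw [hδ, ← hadx, ← hadd]
    field_simp
    ring
  rw [hτδ, div_le_iff₀ (by positivity)] at hsum
  have hamgm : τ₁ * τ₂ ≤ τ ^ 2 / 4 := by
    rw [← hadd]
    nlinarith [sq_nonneg (τ₁ - τ₂)]
  -- `2 σ δ² ≤ 4 X τ^{1/3} τ`
  have hmain : δ ^ 2 ≤ 2 / sg q * (X * τ ^ (1 / 3 : ℝ)) * τ := by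
    have hXτ : 0 ≤ X * τ ^ (1 / 3 : ℝ) := by positivity
    have h5 : sg q / 2 * (τ * δ) ^ 2 ≤ 4 * (X * τ ^ (1 / 3 : ℝ)) * (τ ^ 2 / 4 * τ) := by
      refine hsum.trans ?_
      apply mul_le_mul_of_nonneg_left _ (by positivity)
      exact mul_le_mul_of_nonneg_right hamgm p3.le
    have h6 : sg q / 2 * (τ * δ) ^ 2 = τ ^ 2 * (sg q / 2 * δ ^ 2) := by ring
    have h7 : 4 * (X * τ ^ (1 / 3 : ℝ)) * (τ ^ 2 / 4 * τ) = τ ^ 2 * ((X * τ ^ (1 / 3 : ℝ)) * τ) := by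
      ring
    rw [h6, h7] at h5
    have h8 := le_of_mul_le_mul_left h5 (by positivity : 0 < τ ^ 2)
    calc δ ^ 2 = 2 / sg q * (sg q / 2 * δ ^ 2) := by field_simp
      _ ≤ 2 / sg q * ((X * τ ^ (1 / 3 : ℝ)) * τ) := mul_le_mul_of_nonneg_left h8 (by positivity)
      _ = _ := by ring
  have hX2 : X = ((n : ℝ) ^ (c₁ / 2)) ^ 2 := by
    rw [hX, ← Real.rpow_natCast, ← Real.rpow_mul hn0.le]
    congr 1
    push_cast
    ring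
  have hτ2 : τ ^ (1 / 3 : ℝ) * τ = (τ ^ (2 / 3 : ℝ)) ^ 2 := by
    rw [← Real.rpow_natCast, ← Real.rpow_mul p3.le]
    nth_rw 2 [← Real.rpow_one τ]
    rw [← Real.rpow_add p3]
    congr 1
    push_cast
    norm_num
  have hB : 2 / sg q = √(2 / sg q) ^ 2 := (Real.sq_sqrt (by positivity)).symm
  have hfin : δ ^ 2 ≤ (√(2 / sg q) * (n : ℝ) ^ (c₁ / 2) * τ ^ (2 / 3 : ℝ)) ^ 2 := by
    refine hmain.trans (le_of_eq ?_)
    calc 2 / sg q * (X * τ ^ (1 / 3 : ℝ)) * τ = 2 / sg q * (X * (τ ^ (1 / 3 : ℝ) * τ)) := by ring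
      _ = √(2 / sg q) ^ 2 * (((n : ℝ) ^ (c₁ / 2)) ^ 2 * (τ ^ (2 / 3 : ℝ)) ^ 2) := by
          rw [← hB, ← hX2, ← hτ2]
      _ = _ := by ring
  exact abs_le_of_sq_le_sq hfin (by positivity)

/-- Version with non strict inequalities. -/
theorem Ctx.defic' (h : Ctx q β c₁ n ω N y γ g) (s r t : ℤ) (h0 : 0 ≤ s) (h1 : s ≤ r) (h2 : r ≤ t)
    (h3 : t ≤ N) (hst : s < t) (hD : |((γ t - γ s : ℤ) : ℝ)| ≤ ((t - s : ℤ) : ℝ) ^ (3 / 4 : ℝ))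
    (hgX : g ≤ (n : ℝ) ^ c₁ * ((t - s : ℤ) : ℝ) ^ (1 / 3 : ℝ)) :
    |dev γ s t r| ≤ √(2 / sg q) * (n : ℝ) ^ (c₁ / 2) * ((t - s : ℤ) : ℝ) ^ (2 / 3 : ℝ) := by
  have hτ : (0 : ℝ) < ((t - s : ℤ) : ℝ) := by exact_mod_cast (by omega : 0 < t - s)
  rcases eq_or_lt_of_le h1 with h4 | h4
  · have : dev γ s t r = 0 := by
      unfold dev; rw [h4]; simp
    rw [this, abs_zero]
    positivity
  · rcases eq_or_lt_of_le h2 with h5 | h5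
    · have : dev γ s t r = 0 := by
        unfold dev; rw [h5, mul_div_assoc, div_self hτ.ne', mul_one, sub_self]
      rw [this, abs_zero]
      positivity
    · exact h.defic s r t h0 h4 h5 h3 hD hgX

/-- Comparison of the increments on an interval and on a larger interval. -/
theorem Ctx.sub (h : Ctx q β c₁ n ω N y γ g) (s' s t t' : ℤ) (h0 : 0 ≤ s') (h1 : s' ≤ s)
    (h2 : s < t) (h3 : t ≤ t') (h4 : t' ≤ N)
    (hD : |((γ t' - γ s' : ℤ) : ℝ)| ≤ ((t' - s' : ℤ) : ℝ) ^ (3 / 4 : ℝ))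
    (hgX : g ≤ (n : ℝ) ^ c₁ * ((t' - s' : ℤ) : ℝ) ^ (1 / 3 : ℝ)) :
    |((γ t - γ s : ℤ) : ℝ)| ≤
      |((γ t' - γ s' : ℤ) : ℝ)| * (((t - s : ℤ) : ℝ) / ((t' - s' : ℤ) : ℝ)) +
      2 * (√(2 / sg q) * (n : ℝ) ^ (c₁ / 2) * ((t' - s' : ℤ) : ℝ) ^ (2 / 3 : ℝ)) := by
  have e1 := h.defic' s' s t' h0 h1 (by omega) h4 (by omega) hD hgX
  have e2 := h.defic' s' t t' h0 (by omega) h3 h4 (by omega) hD hgX
  have hτ' : (0 : ℝ) < ((t' - s' : ℤ) : ℝ) := by exact_mod_cast (by omega : 0 < t' - s')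
  have hτ : (0 : ℝ) < ((t - s : ℤ) : ℝ) := by exact_mod_cast (by omega : 0 < t - s)
  have e3 : ((γ t - γ s : ℤ) : ℝ) =
      ((γ t' - γ s' : ℤ) : ℝ) * (((t - s : ℤ) : ℝ) / ((t' - s' : ℤ) : ℝ)) +
        (dev γ s' t' t - dev γ s' t' s) := by
    unfold dev
    push_cast at hτ' ⊢
    field_simp
    ring
  rw [e3]
  refine (abs_add_le _ _).trans ?_
  have e4 : |((γ t' - γ s' : ℤ) : ℝ) * (((t - s : ℤ) : ℝ) / ((t' - s' : ℤ) : ℝ))| =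
      |((γ t' - γ s' : ℤ) : ℝ)| * (((t - s : ℤ) : ℝ) / ((t' - s' : ℤ) : ℝ)) := by
    rw [abs_mul, abs_of_pos (div_pos hτ hτ')]
  rw [e4]
  have e5 := abs_sub (dev γ s' t' t) (dev γ s' t' s)
  linarith

theorem two_rpow : (2 : ℝ) ^ (2 / 3 : ℝ) ≤ 8 / 5 := by
  have h : ((2 : ℝ) ^ (2 / 3 : ℝ)) ^ 3 = 4 := by
    rw [← Real.rpow_natCast, ← Real.rpow_mul (by norm_num)]
    norm_num
  have h0 : 0 ≤ (2 : ℝ) ^ (2 / 3 : ℝ) := by positivity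
  by_contra hc
  push Not at hc
  have : (8 / 5 : ℝ) ^ 3 < ((2 : ℝ) ^ (2 / 3 : ℝ)) ^ 3 := pow_lt_pow_left₀ hc (by norm_num) (by norm_num)
  rw [h] at this
  norm_num at this

/-- Part (ii). -/
theorem Ctx.incr (h : Ctx q β c₁ n ω N y γ g) (c κ A : ℝ) (hc : 0 ≤ c) (hcκ : c ≤ κ)
    (hc₁κ : c₁ ≤ κ) (hκ : 13 * κ ≤ 1) (hA : A = 1 + 20 * √(2 / sg q))
    (hy : |(y : ℝ)| ≤ (N : ℝ) ^ (2 / 3 + c)) (hbig : A ≤ (n : ℝ) ^ (κ / 12)) (k : ℕ) :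
    ∀ s t : ℤ, 0 ≤ s → s < t → t ≤ N → N - (t - s) ≤ k → (n : ℝ) ^ (13 * κ) ≤ ((t - s : ℤ) : ℝ) →
    g ≤ (n : ℝ) ^ c₁ * ((t - s : ℤ) : ℝ) ^ (1 / 3 : ℝ) →
    |((γ t - γ s : ℤ) : ℝ)| ≤ A * (n : ℝ) ^ κ * ((t - s : ℤ) : ℝ) ^ (2 / 3 : ℝ) ∧
    A * (n : ℝ) ^ κ * ((t - s : ℤ) : ℝ) ^ (2 / 3 : ℝ) ≤ ((t - s : ℤ) : ℝ) ^ (3 / 4 : ℝ) := by
  have hσ := sg_pos h.hq h.hq1
  have hκ0 : 0 < κ := lt_of_lt_of_le h.hc₁ hc₁κ
  have hn1 : (1 : ℝ) ≤ n := by exact_mod_cast h.hn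
  have hn0 : (0 : ℝ) < n := by linarith
  set B : ℝ := √(2 / sg q) with hB
  have hB0 : 0 ≤ B := Real.sqrt_nonneg _
  have hA0 : 0 < A := by rw [hA]; linarith
  set P : ℝ := (n : ℝ) ^ κ with hP
  have hP0 : 0 < P := Real.rpow_pos_of_pos hn0 _
  have hX2 : (n : ℝ) ^ (c₁ / 2) ≤ P :=
    Real.rpow_le_rpow_of_exponent_le hn1 (by linarith)
  have hXh0 : 0 < (n : ℝ) ^ (c₁ / 2) := Real.rpow_pos_of_pos hn0 _
  have hsecond : ∀ τ : ℝ, (n : ℝ) ^ (13 * κ) ≤ τ → A * P * τ ^ (2 / 3 : ℝ) ≤ τ ^ (3 / 4 : ℝ) := by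
    intro τ hτ
    have h13 : 0 < (n : ℝ) ^ (13 * κ) := Real.rpow_pos_of_pos hn0 _
    have hτ0 : 0 < τ := lt_of_lt_of_le h13 hτ
    have e1 : A * P ≤ τ ^ (1 / 12 : ℝ) := by
      calc A * P ≤ (n : ℝ) ^ (κ / 12) * (n : ℝ) ^ κ := mul_le_mul_of_nonneg_right hbig hP0.le
        _ = ((n : ℝ) ^ (13 * κ)) ^ (1 / 12 : ℝ) := by
            rw [← Real.rpow_add hn0, ← Real.rpow_mul hn0.le]
            congr 1
            ring
        _ ≤ τ ^ (1 / 12 : ℝ) := Real.rpow_le_rpow h13.le hτ (by norm_num)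
    calc A * P * τ ^ (2 / 3 : ℝ) ≤ τ ^ (1 / 12 : ℝ) * τ ^ (2 / 3 : ℝ) :=
          mul_le_mul_of_nonneg_right e1 (by positivity)
      _ = τ ^ (3 / 4 : ℝ) := by
          rw [← Real.rpow_add hτ0]
          norm_num
  induction k using Nat.strong_induction_on with
  | _ k ih =>
  intro s t h0 hst ht hk hτ13 hgX
  refine ⟨?_, hsecond _ hτ13⟩
  have hτi : 0 < t - s := by omega
  have hτ0 : (0 : ℝ) < ((t - s : ℤ) : ℝ) := by exact_mod_cast hτi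
  have hτ1 : (1 : ℝ) ≤ ((t - s : ℤ) : ℝ) := by exact_mod_cast (by omega : 1 ≤ t - s)
  have h00 : γ 0 = 0 := h.hγ.2.1
  have hNN : γ N = y := h.hγ.2.2
  by_cases hcase : N ≤ 2 * (t - s)
  · -- first case
    have hN1 : (1 : ℝ) ≤ (N : ℝ) := by exact_mod_cast h.hN1
    have hN0 : (0 : ℝ) < (N : ℝ) := by linarith
    have hNn : (N : ℝ) ≤ n := by exact_mod_cast h.hN
    have hτN : ((t - s : ℤ) : ℝ) ≤ N := by exact_mod_cast (by omega : t - s ≤ N)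
    have hy34 : |((γ N - γ 0 : ℤ) : ℝ)| ≤ ((N - 0 : ℤ) : ℝ) ^ (3 / 4 : ℝ) := by
      rw [hNN, h00, sub_zero, sub_zero]
      refine hy.trans ?_
      exact Real.rpow_le_rpow_of_exponent_le hN1 (by linarith)
    have hgN : g ≤ (n : ℝ) ^ c₁ * ((N - 0 : ℤ) : ℝ) ^ (1 / 3 : ℝ) := by
      refine hgX.trans ?_
      apply mul_le_mul_of_nonneg_left _ (by positivity)
      rw [sub_zero]
      exact Real.rpow_le_rpow hτ0.le hτN (by norm_num)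
    have hsub := h.sub 0 s t N le_rfl h0 hst ht le_rfl hy34 hgN
    rw [hNN, h00, sub_zero, sub_zero] at hsub
    have e1 : |(y : ℝ)| * (((t - s : ℤ) : ℝ) / (N : ℝ)) ≤ P * ((t - s : ℤ) : ℝ) ^ (2 / 3 : ℝ) := by
      calc |(y : ℝ)| * (((t - s : ℤ) : ℝ) / (N : ℝ))
          ≤ (N : ℝ) ^ (2 / 3 + c) * (((t - s : ℤ) : ℝ) / (N : ℝ)) :=
            mul_le_mul_of_nonneg_right hy (by positivity)
        _ = (N : ℝ) ^ c * ((N : ℝ) ^ (-(1 / 3) : ℝ) * ((t - s : ℤ) : ℝ)) := by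
            have : (N : ℝ) ^ (2 / 3 + c) = (N : ℝ) ^ c * (N : ℝ) ^ (-(1 / 3) : ℝ) * N := by
              nth_rw 4 [← Real.rpow_one (N : ℝ)]
              rw [← Real.rpow_add hN0, ← Real.rpow_add hN0]
              congr 1
              ring
            rw [this]
            field_simp
        _ ≤ P * (((t - s : ℤ) : ℝ) ^ (-(1 / 3) : ℝ) * ((t - s : ℤ) : ℝ)) := by
            apply mul_le_mul
            · calc (N : ℝ) ^ c ≤ (n : ℝ) ^ c := Real.rpow_le_rpow hN0.le hNn hc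
                _ ≤ P := Real.rpow_le_rpow_of_exponent_le hn1 hcκ
            · apply mul_le_mul_of_nonneg_right _ hτ0.le
              exact Real.rpow_le_rpow_of_nonpos hτ0 hτN (by norm_num)
            · positivity
            · exact hP0.le
        _ = P * ((t - s : ℤ) : ℝ) ^ (2 / 3 : ℝ) := by
            congr 1
            nth_rw 2 [← Real.rpow_one ((t - s : ℤ) : ℝ)]
            rw [← Real.rpow_add hτ0]
            norm_num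
    have e2 : (N : ℝ) ^ (2 / 3 : ℝ) ≤ 8 / 5 * ((t - s : ℤ) : ℝ) ^ (2 / 3 : ℝ) := by
      calc (N : ℝ) ^ (2 / 3 : ℝ) ≤ (2 * ((t - s : ℤ) : ℝ)) ^ (2 / 3 : ℝ) := by
            apply Real.rpow_le_rpow hN0.le _ (by norm_num)
            exact_mod_cast hcase
        _ = 2 ^ (2 / 3 : ℝ) * ((t - s : ℤ) : ℝ) ^ (2 / 3 : ℝ) :=
            Real.mul_rpow (by norm_num) hτ0.le
        _ ≤ _ := mul_le_mul_of_nonneg_right two_rpow (by positivity)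
    have e3 : B * (n : ℝ) ^ (c₁ / 2) * (N : ℝ) ^ (2 / 3 : ℝ) ≤
        B * P * (8 / 5 * ((t - s : ℤ) : ℝ) ^ (2 / 3 : ℝ)) := by
      apply mul_le_mul (mul_le_mul_of_nonneg_left hX2 hB0) e2 (by positivity) (by positivity)
    have hBP : 0 ≤ B * P * ((t - s : ℤ) : ℝ) ^ (2 / 3 : ℝ) := by positivity
    calc |((γ t - γ s : ℤ) : ℝ)| ≤ _ := hsub
      _ ≤ P * ((t - s : ℤ) : ℝ) ^ (2 / 3 : ℝ) +
          2 * (B * P * (8 / 5 * ((t - s : ℤ) : ℝ) ^ (2 / 3 : ℝ))) := by linarith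
      _ = P * ((t - s : ℤ) : ℝ) ^ (2 / 3 : ℝ) +
          16 / 5 * (B * P * ((t - s : ℤ) : ℝ) ^ (2 / 3 : ℝ)) := by ring
      _ ≤ P * ((t - s : ℤ) : ℝ) ^ (2 / 3 : ℝ) +
          20 * (B * P * ((t - s : ℤ) : ℝ) ^ (2 / 3 : ℝ)) := by linarith
      _ = A * P * ((t - s : ℤ) : ℝ) ^ (2 / 3 : ℝ) := by rw [hA]; ring
  · -- second case
    push Not at hcase
    set s' : ℤ := min s (N - 2 * (t - s)) with hs'
    set t' : ℤ := s' + 2 * (t - s) with ht'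
    have a1 : 0 ≤ s' := by omega
    have a2 : s' ≤ s := by omega
    have a3 : t ≤ t' := by omega
    have a4 : t' ≤ N := by omega
    have a5 : t' - s' = 2 * (t - s) := by omega
    have a6 : s' < t' := by omega
    have eτ' : ((t' - s' : ℤ) : ℝ) = 2 * ((t - s : ℤ) : ℝ) := by rw [a5]; push_cast; ring
    have hτ13' : (n : ℝ) ^ (13 * κ) ≤ ((t' - s' : ℤ) : ℝ) := by rw [eτ']; linarith
    have hgX' : g ≤ (n : ℝ) ^ c₁ * ((t' - s' : ℤ) : ℝ) ^ (1 / 3 : ℝ) := by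
      refine hgX.trans ?_
      apply mul_le_mul_of_nonneg_left _ (by positivity)
      apply Real.rpow_le_rpow hτ0.le _ (by norm_num)
      rw [eτ']; linarith
    obtain ⟨i1, i2⟩ := ih ((N - (t' - s')).toNat) (by omega) s' t' a1 a6 a4
      (by omega) hτ13' hgX'
    have hsub := h.sub s' s t t' a1 a2 hst a3 a4 (i1.trans i2) hgX'
    rw [eτ'] at hsub i1
    have e0 : ((t - s : ℤ) : ℝ) / (2 * ((t - s : ℤ) : ℝ)) = 1 / 2 := by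
      field_simp
    rw [e0] at hsub
    have e1 : (2 * ((t - s : ℤ) : ℝ)) ^ (2 / 3 : ℝ) ≤ 8 / 5 * ((t - s : ℤ) : ℝ) ^ (2 / 3 : ℝ) := by
      rw [Real.mul_rpow (by norm_num) hτ0.le]
      exact mul_le_mul_of_nonneg_right two_rpow (by positivity)
    have e2 : B * (n : ℝ) ^ (c₁ / 2) * (2 * ((t - s : ℤ) : ℝ)) ^ (2 / 3 : ℝ) ≤
        B * P * (8 / 5 * ((t - s : ℤ) : ℝ) ^ (2 / 3 : ℝ)) := by
      apply mul_le_mul (mul_le_mul_of_nonneg_left hX2 hB0) e1 (by positivity) (by positivity)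
    have e3 : A * P * (2 * ((t - s : ℤ) : ℝ)) ^ (2 / 3 : ℝ) ≤
        A * P * (8 / 5 * ((t - s : ℤ) : ℝ) ^ (2 / 3 : ℝ)) :=
      mul_le_mul_of_nonneg_left e1 (by positivity)
    have hPt : 0 ≤ P * ((t - s : ℤ) : ℝ) ^ (2 / 3 : ℝ) := by positivity
    calc |((γ t - γ s : ℤ) : ℝ)| ≤ _ := hsub
      _ ≤ (A * P * (8 / 5 * ((t - s : ℤ) : ℝ) ^ (2 / 3 : ℝ))) * (1 / 2) +
          2 * (B * P * (8 / 5 * ((t - s : ℤ) : ℝ) ^ (2 / 3 : ℝ))) := by linarith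
      _ = (A * (4 / 5) + 16 / 5 * B) * (P * ((t - s : ℤ) : ℝ) ^ (2 / 3 : ℝ)) := by ring
      _ ≤ A * (P * ((t - s : ℤ) : ℝ) ^ (2 / 3 : ℝ)) := by
          apply mul_le_mul_of_nonneg_right _ hPt
          rw [hA]; linarith
      _ = A * P * ((t - s : ℤ) : ℝ) ^ (2 / 3 : ℝ) := by ring

theorem m_reg : B_REG := by
  intro q hq hq1
  have hσ := sg_pos hq hq1
  set B : ℝ := √(2 / sg q) with hB
  have hB0 : 0 ≤ B := Real.sqrt_nonneg _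
  refine ⟨1 + 20 * B, by linarith, ?_⟩
  intro β c c₁ κ hβ hc hc₁ hκ hcκ hc₁κ
  have hlim : Filter.Tendsto (fun n : ℕ => (n : ℝ) ^ (κ / 12)) Filter.atTop Filter.atTop :=
    (tendsto_rpow_atTop (by positivity : 0 < κ / 12)).comp tendsto_natCast_atTop_atTop
  obtain ⟨n₀, hn₀⟩ := Filter.eventually_atTop.1
    ((hlim.eventually_ge_atTop (1 + 20 * B)).and (Filter.eventually_ge_atTop 2))
  refine ⟨n₀, fun n hn ω hCR N y hN1 hN hy hr γ hγ g hg0 hg s t hs hst ht hτ hgX => ?_⟩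
  obtain ⟨hbig, hn2⟩ := hn₀ n hn
  have hn1 : (1 : ℝ) ≤ n := by exact_mod_cast (by omega : 1 ≤ n)
  have hn1' : (1 : ℝ) < n := by exact_mod_cast (by omega : 1 < n)
  have hctx : Ctx q β c₁ n ω N y γ g := ⟨hq, hq1, hβ, hc₁, by omega, hCR, hN1, hN, hγ, hg⟩
  have hκ13 : 13 * κ ≤ 1 := by
    have h1 : (n : ℝ) ^ (13 * κ) ≤ (n : ℝ) ^ (1 : ℝ) := by
      rw [Real.rpow_one]
      refine hτ.trans ?_
      exact_mod_cast (by omega : t - s ≤ n)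
    exact (Real.rpow_le_rpow_left_iff hn1').1 h1
  obtain ⟨h1, h2⟩ := hctx.incr c κ (1 + 20 * B) hc hcκ hc₁κ hκ13 rfl hy hbig
    ((N - (t - s)).toNat) s t hs hst ht (by omega) hτ hgX
  refine ⟨h1, fun r hsr hrt => ?_⟩
  have h3 := hctx.defic s r t hs hsr hrt ht (h1.trans h2) hgX
  refine h3.trans ?_
  have hτ0 : (0 : ℝ) < ((t - s : ℤ) : ℝ) := by exact_mod_cast (by omega : 0 < t - s)
  apply mul_le_mul_of_nonneg_right _ (by positivity)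
  apply mul_le_mul (by linarith) _ (by positivity) (by linarith)
  exact Real.rpow_le_rpow_of_exponent_le hn1 (by linarith)

end Pool.Agent.H26.LPP
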